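import Pool.Agent.H947R2.TP.Stubs

open MeasureTheory Filter Topology Set

namespace H947TP

section
variable {D n : ℕ} (b : Fin D → Fin n) (δ : ℝ) (k : Fin D)

theorem P1_avg_le (w : Fin D → ℝ) (j : Fin n) (hj : j ≠ b k) : avg b j w ≤ Phi b δ k w := by
  unfold Phi
  refine le_max_of_le_left ?_
  exact le_ciSup (f := fun j : {j : Fin n // j ≠ b k} => avg b j w)
    (Set.finite_range _).bddAbove ⟨j, hj⟩

theorem P1_exc_le' (w : Fin D → ℝ) (l : Fin D) (hl : l ≠ k) :
    max 0 ((|w l| - (1 - δ)) / δ) ≤ Phi b δ k w := by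
  unfold Phi
  refine le_max_of_le_right ?_
  exact le_ciSup (f := fun l : {l : Fin D // l ≠ k} => max 0 ((|w l| - (1 - δ)) / δ))
    (Set.finite_range _).bddAbove ⟨l, hl⟩

theorem P1_exc_le (w : Fin D → ℝ) (l : Fin D) (hl : l ≠ k) :
    (|w l| - (1 - δ)) / δ ≤ Phi b δ k w :=
  (le_max_right _ _).trans (P1_exc_le' b δ k w l hl)

theorem P1_nonneg (hD : 2 ≤ D) (w : Fin D → ℝ) : 0 ≤ Phi b δ k w := by
  haveI : Nontrivial (Fin D) := Fin.nontrivial_iff_two_le.mpr hD
  obtain ⟨l, hl⟩ := exists_ne k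
  exact (le_max_left _ _).trans (P1_exc_le' b δ k w l hl)

theorem P1_le (hD : 2 ≤ D) (hn : 2 ≤ n) (w : Fin D → ℝ) (t : ℝ) (ht : 0 ≤ t)
    (h1 : ∀ j : Fin n, j ≠ b k → avg b j w ≤ t)
    (h2 : ∀ l : Fin D, l ≠ k → (|w l| - (1 - δ)) / δ ≤ t) : Phi b δ k w ≤ t := by
  haveI : Nontrivial (Fin D) := Fin.nontrivial_iff_two_le.mpr hD
  haveI : Nontrivial (Fin n) := Fin.nontrivial_iff_two_le.mpr hn
  obtain ⟨l, hl⟩ := exists_ne k
  obtain ⟨j, hj⟩ := exists_ne (b k)
  haveI : Nonempty {l : Fin D // l ≠ k} := ⟨⟨l, hl⟩⟩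
  haveI : Nonempty {j : Fin n // j ≠ b k} := ⟨⟨j, hj⟩⟩
  unfold Phi
  refine max_le (ciSup_le fun j => h1 j.1 j.2) (ciSup_le fun l => max_le ht (h2 l.1 l.2))

theorem P1_avg_add (w v : Fin D → ℝ) (x y : ℝ) (hx : 0 ≤ x) (hy : 0 ≤ y) (j : Fin n) :
    avg b j (x • w + y • v) ≤ x * avg b j w + y * avg b j v := by
  unfold avg
  rw [← mul_div_assoc, ← mul_div_assoc, ← add_div, Finset.mul_sum, Finset.mul_sum,
    ← Finset.sum_add_distrib]
  refine div_le_div_of_nonneg_right (Finset.sum_le_sum fun l _ => ?_) (Nat.cast_nonneg _)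
  simp only [Pi.add_apply, Pi.smul_apply, smul_eq_mul]
  calc |x * w l + y * v l| ≤ |x * w l| + |y * v l| := abs_add_le _ _
    _ = x * |w l| + y * |v l| := by rw [abs_mul, abs_mul, abs_of_nonneg hx, abs_of_nonneg hy]

end

theorem P1 : St_P1 := by
  intro D n b δ k hδ hδ1 hD hn
  refine ⟨P1_nonneg b δ k hD, ?_, ?_, ?_, ?_, ?_, P1_avg_le b δ k, P1_exc_le b δ k,
    P1_le b δ k hD hn⟩
  · intro w hw
    refine P1_le b δ k hD hn w 1 zero_le_one (fun j _ => ?_) (fun l _ => ?_)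
    · unfold avg
      refine div_le_one_of_le₀ ?_ (Nat.cast_nonneg _)
      calc ∑ l ∈ Finset.univ.filter (fun l => b l = j), |w l|
          ≤ ∑ l ∈ Finset.univ.filter (fun l => b l = j), (1 : ℝ) :=
            Finset.sum_le_sum fun l _ => hw l
        _ = (cnt b j : ℝ) := by simp [cnt]
    · rw [div_le_one hδ]
      linarith [hw l]
  · intro w
    simp [Phi, avg]
  · refine le_antisymm (P1_le b δ k hD hn 0 0 le_rfl (fun j _ => ?_) (fun l _ => ?_))
      (P1_nonneg b δ k hD 0)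
    · simp [avg]
    · simp only [Pi.zero_apply, abs_zero]
      exact div_nonpos_of_nonpos_of_nonneg (by linarith) hδ.le
  · haveI : Nontrivial (Fin D) := Fin.nontrivial_iff_two_le.mpr hD
    haveI : Nontrivial (Fin n) := Fin.nontrivial_iff_two_le.mpr hn
    obtain ⟨l, hl⟩ := exists_ne k
    obtain ⟨j, hj⟩ := exists_ne (b k)
    haveI : Nonempty {l : Fin D // l ≠ k} := ⟨⟨l, hl⟩⟩
    haveI : Nonempty {j : Fin n // j ≠ b k} := ⟨⟨j, hj⟩⟩
    unfold Phi
    refine Continuous.max ?_ ?_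
    · simp only [← Finset.sup'_univ_eq_ciSup]
      refine Continuous.finset_sup'_apply _ fun j _ => ?_
      unfold avg
      fun_prop
    · simp only [← Finset.sup'_univ_eq_ciSup]
      refine Continuous.finset_sup'_apply _ fun l _ => ?_
      fun_prop
  · refine ⟨convex_univ, fun w _ v _ x y hx hy hxy => ?_⟩
    refine P1_le b δ k hD hn _ _ ?_ (fun j hj => ?_) (fun l hl => ?_)
    · exact add_nonneg (mul_nonneg hx (P1_nonneg b δ k hD w)) (mul_nonneg hy (P1_nonneg b δ k hD v))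
    · refine (P1_avg_add b w v x y hx hy j).trans ?_
      exact add_le_add (mul_le_mul_of_nonneg_left (P1_avg_le b δ k w j hj) hx)
        (mul_le_mul_of_nonneg_left (P1_avg_le b δ k v j hj) hy)
    · have h1 := mul_le_mul_of_nonneg_left (P1_exc_le b δ k w l hl) hx
      have h2 := mul_le_mul_of_nonneg_left (P1_exc_le b δ k v l hl) hy
      refine le_trans ?_ (add_le_add h1 h2)
      rw [← mul_div_assoc, ← mul_div_assoc, ← add_div]
      refine div_le_div_of_nonneg_right ?_ hδ.le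
      simp only [Pi.add_apply, Pi.smul_apply, smul_eq_mul]
      have h3 : |x * w l + y * v l| ≤ x * |w l| + y * |v l| := by
        calc |x * w l + y * v l| ≤ |x * w l| + |y * v l| := abs_add_le _ _
          _ = x * |w l| + y * |v l| := by
              rw [abs_mul, abs_mul, abs_of_nonneg hx, abs_of_nonneg hy]
      have h4 : (1 - δ) = x * (1 - δ) + y * (1 - δ) := by rw [← add_mul, hxy, one_mul]
      nlinarith [h3, h4]

end H947TP
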